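import Mathlib

/-!
Entropy inequalities for families of tuples that are closed under permuting the coordinates.
-/

set_option linter.unusedSectionVars false

namespace NoThree

open Finset

section Fibre

variable {τ α : Type*} [DecidableEq α]

/-- the number of elements of `H` with `f z = u` -/
def cnt (H : Finset τ) (f : τ → α) (u : α) : ℕ := #(H.filter fun z => f z = u)

lemma cnt_pos {H : Finset τ} (f : τ → α) {z : τ} (hz : z ∈ H) : 0 < cnt H f (f z) :=
  card_pos.2 ⟨z, mem_filter.2 ⟨hz, rfl⟩⟩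

lemma sum_div_cnt (H : Finset τ) (f : τ → α) (G : α → ℝ) :
    ∑ z ∈ H, G (f z) / cnt H f (f z) = ∑ u ∈ H.image f, G u := by
  rw [sum_comp (fun u => G u / cnt H f u) f]
  refine sum_congr rfl fun u hu => ?_
  obtain ⟨z, hz, rfl⟩ := mem_image.1 hu
  have : (cnt H f (f z) : ℝ) ≠ 0 := by exact_mod_cast (cnt_pos f hz).ne'
  rw [nsmul_eq_mul]
  change (cnt H f (f z) : ℝ) * _ = _
  field_simp

lemma sum_cnt_mul (H : Finset τ) (f : τ → α) (Ω : Finset α) (hf : ∀ z ∈ H, f z ∈ Ω) (G : α → ℝ) :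
    ∑ u ∈ Ω, cnt H f u * G u = ∑ z ∈ H, G (f z) := by
  rw [← sum_fiberwise_of_maps_to hf]
  refine sum_congr rfl fun u _ => ?_
  rw [sum_congr rfl (g := fun _ => G u) fun z hz => by rw [(mem_filter.1 hz).2], sum_const,
    nsmul_eq_mul]
  rfl

lemma sum_cnt_cnt_le (H : Finset τ) (f g : τ → α) (P : Finset (α × α)) :
    ∑ p ∈ P, (cnt H f p.1 * cnt H g p.2 : ℝ) ≤ (#H : ℝ) ^ 2 := by
  have h1 : ∀ p : α × α, cnt H f p.1 * cnt H g p.2 =
      #((H ×ˢ H).filter fun q => (f q.1, g q.2) = p) := fun p => by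
    unfold cnt
    rw [← card_product, ← filter_product]
    congr 1
    ext q
    simp [Prod.ext_iff]
  have h2 : ∑ p ∈ P, cnt H f p.1 * cnt H g p.2 ≤ #H ^ 2 := by
    rw [sum_congr rfl fun p _ => h1 p, sum_card_fiberwise_eq_card_filter, sq, ← card_product]
    exact card_filter_le _ _
  exact_mod_cast h2

/-- mutual information is at least the product measure of a set the joint law avoids -/
lemma mi (H : Finset τ) (hH : H.Nonempty) (f g : τ → α) (B : Finset (α × α))
    (hB : ∀ z ∈ H, (f z, g z) ∉ B) :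
    (∑ p ∈ B, (cnt H f p.1 * cnt H g p.2 : ℝ)) / #H ≤
      ∑ z ∈ H, (Real.log #H - Real.log (cnt H f (f z)) - Real.log (cnt H g (g z))
        + Real.log (cnt H (fun z => (f z, g z)) (f z, g z))) := by
  have hh : (0 : ℝ) < #H := by exact_mod_cast hH.card_pos
  set F : τ → α × α := fun z => (f z, g z) with hF
  have h1 : ∀ z ∈ H, 1 - (cnt H f (F z).1 * cnt H g (F z).2 / #H : ℝ) / cnt H F (F z) ≤
      Real.log #H - Real.log (cnt H f (f z)) - Real.log (cnt H g (g z))
        + Real.log (cnt H F (f z, g z)) := fun z hz => by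
    have a1 : (0 : ℝ) < cnt H f (f z) := by exact_mod_cast cnt_pos f hz
    have a2 : (0 : ℝ) < cnt H g (g z) := by exact_mod_cast cnt_pos g hz
    have a3 : (0 : ℝ) < cnt H F (f z, g z) := by exact_mod_cast cnt_pos F hz
    have := Real.one_sub_inv_le_log_of_pos
      (x := #H * cnt H F (f z, g z) / (cnt H f (f z) * cnt H g (g z))) (by positivity)
    rw [Real.log_div (by positivity) (by positivity), Real.log_mul hh.ne' a3.ne',
      Real.log_mul a1.ne' a2.ne'] at this
    have e : ((#H : ℝ) * cnt H F (f z, g z) / (cnt H f (f z) * cnt H g (g z)))⁻¹ =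
        (cnt H f (F z).1 * cnt H g (F z).2 / #H : ℝ) / cnt H F (F z) := by
      simp only [hF]
      field_simp
    rw [e] at this
    linarith
  refine le_trans ?_ (sum_le_sum h1)
  rw [sum_sub_distrib, sum_div_cnt H F fun p => (cnt H f p.1 * cnt H g p.2 / #H : ℝ), sum_const,
    nsmul_eq_mul, mul_one, ← sum_div]
  have hd : Disjoint B (H.image F) := by
    rw [disjoint_right]
    intro p hp
    obtain ⟨z, hz, rfl⟩ := mem_image.1 hp
    exact hB z hz
  have h2 := sum_cnt_cnt_le H f g (B ∪ H.image F)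
  rw [sum_union hd] at h2
  rw [le_sub_iff_add_le, ← add_div, div_le_iff₀ hh]
  nlinarith

/-- values of large probability cost entropy -/
lemma heavy (H : Finset τ) (hH : H.Nonempty) (f : τ → α) (Ω : Finset α) (hf : ∀ z ∈ H, f z ∈ Ω)
    {K : ℝ} (hK : 1 ≤ K) :
    ∑ z ∈ H, ((if K * #H < #Ω * cnt H f (f z) then Real.log K else 0) - 1) ≤
      ∑ z ∈ H, (Real.log #Ω - (Real.log #H - Real.log (cnt H f (f z)))) := by
  have hh : (0 : ℝ) < #H := by exact_mod_cast hH.card_pos
  have hΩ : (0 : ℝ) < #Ω := by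
    obtain ⟨z, hz⟩ := hH
    exact_mod_cast card_pos.2 ⟨_, hf z hz⟩
  have h1 : ∀ z ∈ H, (if K * #H < #Ω * cnt H f (f z) then Real.log K else 0)
      - (#H / #Ω : ℝ) / cnt H f (f z) ≤
      Real.log #Ω - (Real.log #H - Real.log (cnt H f (f z))) := fun z hz => by
    have a1 : (0 : ℝ) < cnt H f (f z) := by exact_mod_cast cnt_pos f hz
    have e : Real.log #Ω - (Real.log #H - Real.log (cnt H f (f z))) =
        Real.log (#Ω * cnt H f (f z) / #H) := by
      rw [Real.log_div (by positivity) hh.ne', Real.log_mul hΩ.ne' a1.ne']; ring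
    have a2 : (0 : ℝ) ≤ (#H / #Ω : ℝ) / cnt H f (f z) := by positivity
    rw [e]
    split_ifs with h
    · have : Real.log K ≤ Real.log (#Ω * cnt H f (f z) / #H) :=
        Real.log_le_log (by linarith) (by rw [le_div_iff₀ hh]; exact h.le)
      linarith
    · have := Real.one_sub_inv_le_log_of_pos (x := #Ω * cnt H f (f z) / #H) (by positivity)
      have e' : ((#Ω : ℝ) * cnt H f (f z) / #H)⁻¹ = (#H / #Ω : ℝ) / cnt H f (f z) := by
        field_simp
      rw [e'] at this
      linarith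
  refine le_trans ?_ (sum_le_sum h1)
  rw [sum_sub_distrib, sum_sub_distrib, sum_div_cnt H f fun _ => (#H / #Ω : ℝ)]
  simp only [sum_const, nsmul_eq_mul, mul_one]
  have h2 : (#(H.image f) : ℝ) ≤ #Ω := by
    exact_mod_cast card_le_card fun u hu => by
      obtain ⟨z, hz, rfl⟩ := mem_image.1 hu
      exact hf z hz
  have h3 : (#(H.image f) : ℝ) * (#H / #Ω) ≤ #H := by
    rw [← mul_div_assoc, div_le_iff₀ hΩ]
    nlinarith
  linarith

end Fibre

section Tuples

variable {ι α : Type*} [Fintype ι] [DecidableEq ι] [DecidableEq α]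

/-- the members of `X` that agree with `y` on `A` -/
def fib (X : Finset (ι → α)) (A : Finset ι) (y : ι → α) : Finset (ι → α) :=
  X.filter fun z => ∀ i ∈ A, z i = y i

/-- closed under permuting the coordinates -/
def Sym (X : Finset (ι → α)) : Prop := ∀ y ∈ X, ∀ σ : Equiv.Perm ι, y ∘ σ ∈ X

variable {X : Finset (ι → α)} {A : Finset ι}

lemma mem_fib {y z : ι → α} : z ∈ fib X A y ↔ z ∈ X ∧ ∀ i ∈ A, z i = y i := mem_filter

lemma self_mem_fib {y : ι → α} (hy : y ∈ X) : y ∈ fib X A y := mem_fib.2 ⟨hy, fun _ _ => rfl⟩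

lemma fib_eq {y z : ι → α} (hz : z ∈ fib X A y) : fib X A z = fib X A y := by
  ext w
  rw [mem_fib, mem_fib]
  refine and_congr_right fun _ => forall₂_congr fun i hi => ?_
  rw [(mem_fib.1 hz).2 i hi]

lemma card_fib_insert {y z : ι → α} (hz : z ∈ fib X A y) (a : ι) :
    #(fib X (insert a A) z) = cnt (fib X A y) (fun w => w a) (z a) := by
  unfold cnt
  rw [← fib_eq hz]
  congr 1
  ext w
  simp only [mem_fib, mem_filter, mem_insert, forall_eq_or_imp]
  tauto

lemma card_fib_insert2 {y z : ι → α} (hz : z ∈ fib X A y) (a b : ι) :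
    #(fib X (insert b (insert a A)) z) = cnt (fib X A y) (fun w => (w a, w b)) (z a, z b) := by
  unfold cnt
  rw [← fib_eq hz]
  congr 1
  ext w
  simp only [mem_fib, mem_filter, mem_insert, forall_eq_or_imp, Prod.mk.injEq]
  tauto

lemma sum_le_of_fib (A : Finset ι) {F G : (ι → α) → ℝ}
    (h : ∀ y ∈ X, ∑ z ∈ fib X A y, F z ≤ ∑ z ∈ fib X A y, G z) : ∑ z ∈ X, F z ≤ ∑ z ∈ X, G z := by
  set r : (ι → α) → ι → Option α := fun y i => if i ∈ A then some (y i) else none with hr
  have hm : ∀ y ∈ X, r y ∈ X.image r := fun y hy => mem_image_of_mem r hy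
  rw [← sum_fiberwise_of_maps_to hm, ← sum_fiberwise_of_maps_to hm]
  refine sum_le_sum fun t ht => ?_
  obtain ⟨y, hy, rfl⟩ := mem_image.1 ht
  have e : X.filter (fun z => r z = r y) = fib X A y := by
    ext z
    rw [mem_filter, mem_fib]
    refine and_congr_right fun _ => ⟨fun h i hi => ?_, fun h => ?_⟩
    · simpa [hr, hi] using congrFun h i
    · funext i
      by_cases hi : i ∈ A
      · simp [hr, hi, h i hi]
      · simp [hr, hi]
  rw [e]
  exact h y hy

lemma sum_perm (hX : Sym X) (σ : Equiv.Perm ι) (G : (ι → α) → ℝ) :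
    ∑ y ∈ X, G (y ∘ σ) = ∑ y ∈ X, G y := by
  refine sum_nbij' (fun y => y ∘ σ) (fun y => y ∘ σ.symm) (fun y hy => hX y hy σ)
    (fun y hy => hX y hy σ.symm) (fun y _ => ?_) (fun y _ => ?_) fun _ _ => rfl
  · funext i; simp
  · funext i; simp

lemma card_fib_perm (hX : Sym X) (σ : Equiv.Perm ι) (A : Finset ι) (y : ι → α) :
    #(fib X A (y ∘ σ)) = #(fib X (A.map σ.toEmbedding) y) := by
  refine card_nbij' (fun z => z ∘ σ.symm) (fun z => z ∘ σ) (fun z hz => ?_) (fun z hz => ?_)
    (fun z _ => ?_) fun z _ => ?_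
  · have hz := mem_fib.1 (mem_coe.1 hz)
    refine mem_coe.2 (mem_fib.2 ⟨hX z hz.1 σ.symm, fun i hi => ?_⟩)
    obtain ⟨j, hj, rfl⟩ := mem_map.1 hi
    simpa using hz.2 j hj
  · have hz := mem_fib.1 (mem_coe.1 hz)
    exact mem_coe.2 (mem_fib.2 ⟨hX z hz.1 σ, fun i hi => hz.2 _ (mem_map_of_mem _ hi)⟩)
  · funext i; simp
  · funext i; simp

lemma map_swap_eq {a b : ι} (ha : a ∉ A) (hb : b ∉ A) :
    A.map (Equiv.swap a b).toEmbedding = A := by
  have h : ∀ i ∈ A, Equiv.swap a b i = i := fun i hi =>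
    Equiv.swap_apply_of_ne_of_ne (fun e => ha (e ▸ hi)) fun e => hb (e ▸ hi)
  ext i
  rw [mem_map]
  constructor
  · rintro ⟨j, hj, rfl⟩
    change Equiv.swap a b j ∈ A
    rwa [h j hj]
  · exact fun hi => ⟨i, hi, h i hi⟩

lemma map_swap_insert {a b : ι} (ha : a ∉ A) (hb : b ∉ A) :
    (insert a A).map (Equiv.swap a b).toEmbedding = insert b A := by
  rw [map_insert, map_swap_eq ha hb]
  simp

lemma cnt_swap (hX : Sym X) {a b : ι} (ha : a ∉ A) (hb : b ∉ A) (y : ι → α) (u : α) :
    cnt (fib X A y) (fun w => w b) u = cnt (fib X A y) (fun w => w a) u := by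
  have h : ∀ i ∈ A, Equiv.swap a b i = i := fun i hi =>
    Equiv.swap_apply_of_ne_of_ne (fun e => ha (e ▸ hi)) fun e => hb (e ▸ hi)
  have hm : ∀ z ∈ fib X A y, z ∘ Equiv.swap a b ∈ fib X A y := fun z hz =>
    mem_fib.2 ⟨hX z (mem_fib.1 hz).1 _, fun i hi => by
      rw [Function.comp_apply, h i hi]; exact (mem_fib.1 hz).2 i hi⟩
  unfold cnt
  refine card_nbij' (fun z => z ∘ Equiv.swap a b) (fun z => z ∘ Equiv.swap a b)
    (fun z hz => ?_) (fun z hz => ?_) (fun z _ => ?_) fun z _ => ?_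
  · have hz := mem_filter.1 (mem_coe.1 hz)
    exact mem_coe.2 (mem_filter.2 ⟨hm z hz.1, by simpa using hz.2⟩)
  · have hz := mem_filter.1 (mem_coe.1 hz)
    exact mem_coe.2 (mem_filter.2 ⟨hm z hz.1, by simpa using hz.2⟩)
  · funext i; simp
  · funext i; simp

/-- the total conditional entropy given the coordinates in `A` -/
noncomputable def Phi (X : Finset (ι → α)) (A : Finset ι) : ℝ := ∑ y ∈ X, Real.log #(fib X A y)

lemma Phi_insert (hX : Sym X) {a b : ι} (ha : a ∉ A) (hb : b ∉ A) :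
    Phi X (insert b A) = Phi X (insert a A) := by
  unfold Phi
  rw [← sum_perm hX (Equiv.swap a b) fun y => Real.log #(fib X (insert a A) y)]
  refine sum_congr rfl fun y _ => ?_
  rw [card_fib_perm hX, map_swap_insert ha hb]

lemma Phi_empty : Phi X ∅ = #X * Real.log #X := by
  unfold Phi
  rw [sum_congr rfl (g := fun _ => Real.log #X) fun y _ => by simp [fib], sum_const, nsmul_eq_mul]

lemma Phi_nonneg : 0 ≤ Phi X A :=
  sum_nonneg fun _ _ => Real.log_natCast_nonneg _

lemma Phi_univ : Phi X univ = 0 := by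
  refine sum_eq_zero fun y hy => ?_
  have : fib X univ y = {y} := by
    ext z
    rw [mem_fib, mem_singleton]
    exact ⟨fun h => funext fun i => h.2 i (mem_univ i), fun h => by
      rw [h]; exact ⟨hy, fun _ _ => rfl⟩⟩
  rw [this]
  simp

/-- the second difference of `Phi`, fibre by fibre -/
lemma second_diff (hX : Sym X) {a b : ι} (ha : a ∉ A) (hb : b ∉ A) (F : (ι → α) → ℝ)
    (h : ∀ y ∈ X, ∃ B : Finset (α × α), (∀ z ∈ fib X A y, (z a, z b) ∉ B) ∧
      ∑ z ∈ fib X A y, F z ≤ (∑ p ∈ B, (cnt (fib X A y) (fun w => w a) p.1 *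
        cnt (fib X A y) (fun w => w a) p.2 : ℝ)) / #(fib X A y)) :
    ∑ z ∈ X, F z ≤ Phi X A - 2 * Phi X (insert a A) + Phi X (insert b (insert a A)) := by
  have e : Phi X A - 2 * Phi X (insert a A) + Phi X (insert b (insert a A)) =
      ∑ z ∈ X, (Real.log #(fib X A z) - Real.log #(fib X (insert a A) z)
        - Real.log #(fib X (insert b A) z) + Real.log #(fib X (insert b (insert a A)) z)) := by
    rw [sum_add_distrib, sum_sub_distrib, sum_sub_distrib]
    have := Phi_insert hX ha hb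
    unfold Phi at this ⊢
    rw [this]
    ring
  rw [e]
  refine sum_le_of_fib A fun y hy => ?_
  obtain ⟨B, hB, hF⟩ := h y hy
  have := mi (fib X A y) ⟨y, self_mem_fib hy⟩ (fun w => w a) (fun w => w b) B hB
  simp only [cnt_swap hX ha hb y] at this
  refine hF.trans (this.trans (le_of_eq (sum_congr rfl fun z hz => ?_)))
  rw [fib_eq hz, card_fib_insert hz, card_fib_insert hz, card_fib_insert2 hz, cnt_swap hX ha hb y]

lemma first_diff (Ω : Finset α) (hΩ : ∀ y ∈ X, ∀ i, y i ∈ Ω) (a : ι) {K : ℝ} (hK : 1 ≤ K) :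
    #(X.filter fun y => K * #(fib X A y) < #Ω * #(fib X (insert a A) y)) * Real.log K - #X ≤
      #X * Real.log #Ω - (Phi X A - Phi X (insert a A)) := by
  have h := sum_le_of_fib (X := X) A
    (F := fun y => (if K * #(fib X A y) < #Ω * #(fib X (insert a A) y) then Real.log K else 0) - 1)
    (G := fun y => Real.log #Ω - (Real.log #(fib X A y) - Real.log #(fib X (insert a A) y)))
    fun y hy => by
      have := heavy (fib X A y) ⟨y, self_mem_fib hy⟩ (fun w => w a) Ω
        (fun z hz => hΩ z (mem_fib.1 hz).1 a) hK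
      refine le_trans (le_of_eq (sum_congr rfl fun z hz => ?_))
        (this.trans (le_of_eq (sum_congr rfl fun z hz => ?_)))
      · rw [fib_eq hz, card_fib_insert hz]
      · rw [fib_eq hz, card_fib_insert hz]
  rw [sum_sub_distrib, sum_sub_distrib, sum_sub_distrib, ← sum_filter] at h
  simpa [Phi] using h

end Tuples

end NoThree
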