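import Mathlib

/-!
Lines through a lattice point, residue classes and a totient sum.
-/

set_option linter.unusedSectionVars false

namespace NoThree

open Finset

/-- the grid -/
noncomputable def box (m : ℕ) : Finset (ℤ × ℤ) := Icc (1 : ℤ) m ×ˢ Icc (1 : ℤ) m

def det (w u v : ℤ × ℤ) : ℤ := (u.1 - w.1) * (v.2 - w.2) - (u.2 - w.2) * (v.1 - w.1)

def gam (u w : ℤ × ℤ) : ℕ := Int.gcd (u.1 - w.1) (u.2 - w.2)

/-- the gcd of the coordinates of `u - w`, if it is at least `G` -/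
noncomputable def wt (G : ℕ) (u w : ℤ × ℤ) : ℝ := if G ≤ gam u w then gam u w else 0

lemma mem_box {m : ℕ} {p : ℤ × ℤ} : p ∈ box m ↔ (1 ≤ p.1 ∧ p.1 ≤ m) ∧ 1 ≤ p.2 ∧ p.2 ≤ m := by
  simp [box]

lemma card_box (m : ℕ) : #(box m) = m ^ 2 := by simp [box, sq]

lemma harm_le (m : ℕ) : ∑ i ∈ Icc 1 m, (1 / i : ℝ) ≤ 1 + Real.log m := by
  have := harmonic_le_one_add_log m
  rw [harmonic_eq_sum_Icc] at this
  simpa using this

lemma le_harm (m : ℕ) : Real.log (m + 1) ≤ ∑ i ∈ Icc 1 m, (1 / i : ℝ) := by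
  have := log_add_one_le_harmonic m
  rw [harmonic_eq_sum_Icc] at this
  simpa using this

lemma sum_inv_abs (m : ℕ) :
    ∑ x ∈ Icc (-(m : ℤ)) m, (1 / |(x : ℝ)|) = 2 * ∑ i ∈ Icc 1 m, (1 / i : ℝ) := by
  induction m with
  | zero => simp
  | succ m ih =>
    have e : Icc (-((m + 1 : ℕ) : ℤ)) ((m + 1 : ℕ) : ℤ) =
        insert ((m : ℤ) + 1) (insert (-((m : ℤ) + 1)) (Icc (-(m : ℤ)) m)) := by
      ext x
      simp only [mem_Icc, mem_insert]
      push_cast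
      omega
    rw [e, sum_insert (by simp only [mem_Icc, mem_insert]; omega),
      sum_insert (by simp only [mem_Icc]; omega), ih, sum_Icc_succ_top (by omega)]
    push_cast
    rw [abs_neg, abs_of_nonneg (by positivity)]
    ring

lemma sum_half (m : ℕ) : ∑ x ∈ Icc (-(m : ℤ)) m, ∑ y ∈ Icc (-(m : ℤ)) m,
    (if |y| ≤ |x| then 1 / (x : ℝ) ^ 2 else 0) ≤ 6 * (1 + Real.log m) := by
  have h : ∀ x ∈ Icc (-(m : ℤ)) m, ∑ y ∈ Icc (-(m : ℤ)) m,
      (if |y| ≤ |x| then 1 / (x : ℝ) ^ 2 else 0) ≤ 3 * (1 / |(x : ℝ)|) := fun x _ => by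
    rw [← sum_filter, sum_const, nsmul_eq_mul]
    rcases eq_or_ne x 0 with rfl | hx
    · simp
    have h1 : #((Icc (-(m : ℤ)) m).filter fun y => |y| ≤ |x|) ≤ #(Icc (-|x|) |x|) :=
      card_le_card fun y hy => mem_Icc.2 (abs_le.1 (mem_filter.1 hy).2)
    have h2 : (#(Icc (-|x|) |x|) : ℤ) = 2 * |x| + 1 := by
      rw [Int.card_Icc, Int.toNat_of_nonneg (by have := abs_nonneg x; omega)]; ring
    have h3 : (1 : ℤ) ≤ |x| := Int.one_le_abs hx
    have h4 : (#((Icc (-(m : ℤ)) m).filter fun y => |y| ≤ |x|) : ℝ) ≤ 3 * |(x : ℝ)| := by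
      have : (#((Icc (-(m : ℤ)) m).filter fun y => |y| ≤ |x|) : ℤ) ≤ 3 * |x| := by
        have : (#((Icc (-(m : ℤ)) m).filter fun y => |y| ≤ |x|) : ℤ) ≤ #(Icc (-|x|) |x|) := by
          exact_mod_cast h1
        omega
      exact_mod_cast this
    have h5 : (0 : ℝ) < |(x : ℝ)| := abs_pos.2 (by exact_mod_cast hx)
    calc _ ≤ 3 * |(x : ℝ)| * (1 / (x : ℝ) ^ 2) := by gcongr
      _ = _ := by rw [← sq_abs]; field_simp
  refine (sum_le_sum h).trans ?_
  rw [← mul_sum, sum_inv_abs]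
  linarith [harm_le m]

/-- the maximum norm -/
def rho (d : ℤ × ℤ) : ℝ := ((max |d.1| |d.2| : ℤ) : ℝ)

lemma sum_rho (m : ℕ) :
    ∑ d ∈ Icc (-(m : ℤ)) m ×ˢ Icc (-(m : ℤ)) m, 1 / rho d ^ 2 ≤ 12 * (1 + Real.log m) := by
  have h : ∀ d ∈ Icc (-(m : ℤ)) m ×ˢ Icc (-(m : ℤ)) m, 1 / rho d ^ 2 ≤
      (if |d.2| ≤ |d.1| then 1 / (d.1 : ℝ) ^ 2 else 0) +
        (if |d.1| ≤ |d.2| then 1 / (d.2 : ℝ) ^ 2 else 0) := fun d _ => by
    unfold rho
    rcases le_total |d.2| |d.1| with h | h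
    · rw [max_eq_left h, if_pos h, Int.cast_abs, sq_abs, le_add_iff_nonneg_right]
      split_ifs <;> positivity
    · rw [max_eq_right h, if_pos h, Int.cast_abs, sq_abs, le_add_iff_nonneg_left]
      split_ifs <;> positivity
  refine (sum_le_sum h).trans ?_
  rw [sum_add_distrib, sum_product, sum_product_right]
  linarith [sum_half m]

/-- many pairs on common lines through `w` -/
lemma geo {m G : ℕ} (hG : 1 ≤ G) {w : ℤ × ℤ} (hw : w ∈ box m) (ν : ℤ × ℤ → ℝ) {η τ : ℝ}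
    (h0 : ∀ u, 0 ≤ ν u) (h1 : ∀ u, ν u ≤ η) (hτ : 0 ≤ τ) (hη : η ≤ τ * G) :
    τ * ∑ u ∈ box m, ν u * wt G u w - 12 * τ ^ 2 * m ^ 2 * (1 + Real.log m) ≤
      ∑ p ∈ (box m ×ˢ box m).filter fun p => p.1 ≠ p.2 ∧ det w p.1 p.2 = 0, ν p.1 * ν p.2 := by
  set U := (box m).filter fun u => G ≤ gam u w with hU
  set dir : ℤ × ℤ → ℤ × ℤ := fun u => ((u.1 - w.1) / gam u w, (u.2 - w.2) / gam u w) with hdir
  set D := Icc (-(m : ℤ)) m ×ˢ Icc (-(m : ℤ)) m with hD
  have e1 : ∀ u, u.1 - w.1 = gam u w * (dir u).1 := fun u =>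
    (Int.mul_ediv_cancel' (Int.gcd_dvd_left _ _)).symm
  have e2 : ∀ u, u.2 - w.2 = gam u w * (dir u).2 := fun u =>
    (Int.mul_ediv_cancel' (Int.gcd_dvd_right _ _)).symm
  have hb : ∀ u ∈ U, (1 : ℤ) ≤ gam u w ∧ gam u w * max |(dir u).1| |(dir u).2| ≤ (m : ℤ) ∧
      1 ≤ max |(dir u).1| |(dir u).2| := fun u hu => by
    obtain ⟨hu1, hu2⟩ := mem_filter.1 hu
    rw [mem_box] at hu1 hw
    have g1 : (1 : ℤ) ≤ gam u w := by exact_mod_cast hG.trans hu2
    have a1 : (gam u w : ℤ) * |(dir u).1| ≤ m := by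
      rw [← abs_of_nonneg (show (0 : ℤ) ≤ gam u w by omega), ← abs_mul, ← e1, abs_le]; omega
    have a2 : (gam u w : ℤ) * |(dir u).2| ≤ m := by
      rw [← abs_of_nonneg (show (0 : ℤ) ≤ gam u w by omega), ← abs_mul, ← e2, abs_le]; omega
    refine ⟨g1, by rw [mul_max_of_nonneg _ _ (by omega)]; exact max_le a1 a2, ?_⟩
    by_contra hc
    rw [not_le, max_lt_iff, Int.abs_lt_one_iff, Int.abs_lt_one_iff] at hc
    have b1 := e1 u
    have b2 := e2 u
    rw [hc.1, mul_zero] at b1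
    rw [hc.2, mul_zero] at b2
    have : gam u w = 0 := by unfold gam; rw [b1, b2]; rfl
    omega
  have hm : ∀ u ∈ U, dir u ∈ D := fun u hu => by
    obtain ⟨g1, g2, g3⟩ := hb u hu
    have : max |(dir u).1| |(dir u).2| ≤ (m : ℤ) := by nlinarith
    rw [max_le_iff, abs_le, abs_le] at this
    exact mem_product.2 ⟨mem_Icc.2 this.1, mem_Icc.2 this.2⟩
  set A : ℤ × ℤ → ℝ := fun d => ∑ u ∈ U.filter fun u => dir u = d, ν u with hA
  have hfib : ∀ β : ℤ × ℤ → ℝ, ∑ d ∈ D, β d * A d = ∑ u ∈ U, ν u * β (dir u) := fun β => by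
    rw [← sum_fiberwise_of_maps_to hm]
    refine sum_congr rfl fun d _ => ?_
    rw [hA, mul_sum]
    exact sum_congr rfl fun u hu => by rw [(mem_filter.1 hu).2, mul_comm]
  have hΛ : ∑ u ∈ box m, ν u * wt G u w = ∑ u ∈ U, ν u * gam u w := by
    rw [hU, sum_filter]
    exact sum_congr rfl fun u _ => by unfold wt; split_ifs <;> simp
  have s1 : ∑ d ∈ D, A d * A d ≤ τ * ∑ u ∈ U, ν u * gam u w +
      ∑ p ∈ (box m ×ˢ box m).filter fun p => p.1 ≠ p.2 ∧ det w p.1 p.2 = 0, ν p.1 * ν p.2 := by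
    rw [hfib, sum_filter (s := box m ×ˢ box m), sum_product, mul_sum]
    have t1 : ∀ u ∈ U, ν u * A (dir u) ≤ τ * (ν u * gam u w) +
        ∑ v ∈ box m, if u ≠ v ∧ det w u v = 0 then ν u * ν v else 0 := fun u hu => by
      have hu' : u ∈ U.filter fun v => dir v = dir u := mem_filter.2 ⟨hu, rfl⟩
      have c1 : A (dir u) = ν u + ∑ v ∈ (U.filter fun v => dir v = dir u).erase u, ν v :=
        (add_sum_erase _ _ hu').symm
      have c2 : ∑ v ∈ (U.filter fun v => dir v = dir u).erase u, ν v ≤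
          ∑ v ∈ (box m).filter fun v => u ≠ v ∧ det w u v = 0, ν v := by
        refine sum_le_sum_of_subset_of_nonneg (fun v hv => ?_) fun v _ _ => h0 v
        obtain ⟨hv1, hv2⟩ := mem_erase.1 hv
        obtain ⟨hv2, hv3⟩ := mem_filter.1 hv2
        refine mem_filter.2 ⟨(mem_filter.1 hv2).1, hv1.symm, ?_⟩
        unfold det
        rw [e1 u, e2 u, e1 v, e2 v, hv3]
        ring
      have c3 : ν u ≤ τ * gam u w := by
        have : (G : ℝ) ≤ gam u w := by exact_mod_cast (mem_filter.1 hu).2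
        exact (h1 u).trans (hη.trans (by gcongr))
      rw [← sum_filter, ← mul_sum, c1]
      have := h0 u
      nlinarith [mul_le_mul_of_nonneg_left c2 this, mul_le_mul_of_nonneg_left c3 this]
    refine (sum_le_sum t1).trans ?_
    rw [sum_add_distrib]
    gcongr
    · intro u _ _
      exact sum_nonneg fun v _ => by
        split_ifs
        · exact mul_nonneg (h0 u) (h0 v)
        · exact le_rfl
    · exact filter_subset _ _
  have s2 : ∑ d ∈ D, (2 * (τ * m / rho d * A d) - τ ^ 2 * m ^ 2 * (1 / rho d ^ 2)) ≤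
      ∑ d ∈ D, A d * A d := sum_le_sum fun d _ => by
    have : τ ^ 2 * m ^ 2 * (1 / rho d ^ 2) = (τ * m / rho d) ^ 2 := by ring
    nlinarith [sq_nonneg (A d - τ * m / rho d)]
  rw [sum_sub_distrib, ← mul_sum, ← mul_sum, hfib] at s2
  have s3 : τ * ∑ u ∈ U, ν u * gam u w ≤ ∑ u ∈ U, ν u * (τ * m / rho (dir u)) := by
    rw [mul_sum]
    refine sum_le_sum fun u hu => ?_
    obtain ⟨-, g2, g3⟩ := hb u hu
    have r1 : (0 : ℝ) < rho (dir u) := by
      unfold rho; exact_mod_cast lt_of_lt_of_le one_pos g3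
    have r2 : (gam u w : ℝ) * rho (dir u) ≤ m := by unfold rho; exact_mod_cast g2
    have r3 : τ * gam u w ≤ τ * m / rho (dir u) := by
      rw [le_div_iff₀ r1, mul_assoc]; gcongr
    nlinarith [mul_le_mul_of_nonneg_left r3 (h0 u)]
  have s4 := mul_le_mul_of_nonneg_left (sum_rho m) (show 0 ≤ τ ^ 2 * m ^ 2 by positivity)
  rw [hΛ]
  linarith

lemma det_three {u v a b c : ℤ × ℤ} (huv : u ≠ v) (ha : det a u v = 0) (hb : det b u v = 0)
    (hc : det c u v = 0) : det a b c = 0 := by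
  unfold det at *
  by_contra h
  apply huv
  have h1 : (v.1 - u.1) * ((b.1 - a.1) * (c.2 - a.2) - (b.2 - a.2) * (c.1 - a.1)) = 0 := by
    linear_combination (c.1 - b.1) * ha + (a.1 - c.1) * hb + (b.1 - a.1) * hc
  have h2 : (v.2 - u.2) * ((b.1 - a.1) * (c.2 - a.2) - (b.2 - a.2) * (c.1 - a.1)) = 0 := by
    linear_combination (c.2 - b.2) * ha + (a.2 - c.2) * hb + (b.2 - a.2) * hc
  have h3 := (mul_eq_zero.1 h1).resolve_right h
  have h4 := (mul_eq_zero.1 h2).resolve_right h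
  ext <;> omega

section Classes

variable {ι C : Type*} [Fintype ι] [DecidableEq ι] [Fintype C] [DecidableEq C]

lemma sum_class (κ : ι → C) (w w' : ι → ℝ) :
    ∑ c, (∑ i, if κ i = c then w i else 0) * (∑ i, if κ i = c then w' i else 0) =
      ∑ i, ∑ i', if κ i = κ i' then w i * w' i' else 0 := by
  simp only [sum_mul_sum]
  rw [sum_comm]
  refine sum_congr rfl fun i _ => ?_
  rw [sum_comm]
  refine sum_congr rfl fun i' _ => ?_
  rw [sum_eq_single (κ i) (fun c _ hc => by rw [if_neg hc.symm, zero_mul]) (by simp)]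
  by_cases h : κ i = κ i'
  · simp [h]
  · simp [h, Ne.symm h]

/-- pairs in the same class -/
lemma classes [Nonempty C] (κ : ι → C) (p s l : ι → ℝ) (h0 : ∀ i, 0 ≤ l i) (h1 : ∀ i, l i ≤ s i) :
    (∑ i, l i - 1 / 4) / (2 * Fintype.card C) -
      (∑ i, ∑ i', if κ i = κ i' then (p i - s i) * (p i' - s i') else 0) / 2 ≤
      ∑ i, ∑ i', if κ i = κ i' then p i * l i' else 0 := by
  rw [← sum_class, ← sum_class]
  have hM : (0 : ℝ) < Fintype.card C := by exact_mod_cast Fintype.card_pos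
  have e : ∑ i, l i = ∑ c, ∑ i, if κ i = c then l i else 0 := by
    rw [sum_comm]
    simp
  have e' : (∑ i, l i - 1 / 4) / (2 * Fintype.card C) =
      ∑ c, ((∑ i, if κ i = c then l i else 0) / Fintype.card C
        - 1 / (4 * (Fintype.card C : ℝ) ^ 2)) / 2 := by
    rw [← sum_div, sum_sub_distrib, ← sum_div, ← e, sum_const, card_univ, nsmul_eq_mul]
    field_simp
  rw [e', sum_div, ← sum_sub_distrib]
  refine sum_le_sum fun c _ => ?_
  have a0 : 0 ≤ ∑ i, if κ i = c then l i else 0 :=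
    sum_nonneg fun i _ => by split_ifs; exacts [h0 i, le_rfl]
  have a1 : (∑ i, if κ i = c then l i else 0) ≤ ∑ i, if κ i = c then s i else 0 :=
    sum_le_sum fun i _ => by split_ifs; exacts [h1 i, le_rfl]
  have a2 : (∑ i, if κ i = c then p i - s i else 0) =
      (∑ i, if κ i = c then p i else 0) - ∑ i, if κ i = c then s i else 0 := by
    rw [← sum_sub_distrib]
    exact sum_congr rfl fun i _ => by split_ifs <;> simp
  rw [a2]
  generalize (∑ i, if κ i = c then l i else 0) = L at a0 a1 ⊢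
  generalize (∑ i, if κ i = c then s i else 0) = S at a1 ⊢
  generalize (∑ i, if κ i = c then p i else 0) = P
  have a3 : L / Fintype.card C - 1 / (4 * (Fintype.card C : ℝ) ^ 2) ≤ L ^ 2 := by
    have : L / Fintype.card C - 1 / (4 * (Fintype.card C : ℝ) ^ 2) =
        L ^ 2 - (L - 1 / (2 * Fintype.card C)) ^ 2 := by
      field_simp
      ring
    rw [this]
    linarith [sq_nonneg (L - 1 / (2 * (Fintype.card C : ℝ)))]
  nlinarith [sq_nonneg (P - S + L), mul_nonneg a0 (sub_nonneg.2 a1)]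

end Classes

lemma sum_totient_le {G Y : ℕ} {u w : ℤ × ℤ} (h : u ≠ w) :
    ∑ g ∈ Icc G Y, (if ((w.1 : ZMod g), (w.2 : ZMod g)) = ((u.1 : ZMod g), (u.2 : ZMod g))
      then (Nat.totient g : ℝ) else 0) ≤ wt G u w := by
  have h0 : gam u w ≠ 0 := by
    intro e
    unfold gam at e
    rw [Int.gcd_eq_zero_iff] at e
    exact h (by ext <;> omega)
  have hd : ∀ g : ℕ, ((w.1 : ZMod g), (w.2 : ZMod g)) = ((u.1 : ZMod g), (u.2 : ZMod g)) →
      g ∣ gam u w := fun g e => by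
    rw [Prod.mk.injEq, ZMod.intCast_eq_intCast_iff_dvd_sub, ZMod.intCast_eq_intCast_iff_dvd_sub]
      at e
    exact Int.natCast_dvd_natCast.1 (Int.dvd_coe_gcd e.1 e.2)
  rw [← sum_filter]
  unfold wt
  split_ifs with hG
  · have : ((gam u w : ℕ) : ℝ) = ∑ g ∈ (gam u w).divisors, (Nat.totient g : ℝ) := by
      exact_mod_cast (Nat.sum_totient _).symm
    rw [this]
    exact sum_le_sum_of_subset_of_nonneg
      (fun g hg => Nat.mem_divisors.2 ⟨hd g (mem_filter.1 hg).2, h0⟩) fun _ _ _ => by positivity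
  · refine (sum_eq_zero fun g hg => ?_).le
    have := Nat.le_of_dvd (Nat.pos_of_ne_zero h0) (hd g (mem_filter.1 hg).2)
    have := (mem_Icc.1 (mem_filter.1 hg).1).1
    omega

lemma sum_inv_sq (Y : ℕ) :
    ∑ e ∈ Icc 1 Y, (1 / (e : ℝ) ^ 2) ≤ 2 - 1 / (Y + 1 : ℝ) - 1 / (Y + 1) ^ 2 := by
  induction Y with
  | zero => norm_num
  | succ Y ih =>
    rw [sum_Icc_succ_top (by omega)]
    push_cast
    have : (0 : ℝ) < Y + 1 := by positivity
    have h : 1 / (Y + 1 + 1 : ℝ) + 1 / (Y + 1 + 1) ^ 2 ≤ 1 / (Y + 1) := by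
      rw [div_add_div _ _ (by positivity) (by positivity), div_le_div_iff₀ (by positivity) this]
      nlinarith
    linarith

lemma totient_sum (Y : ℕ) :
    Real.log (Y + 1) / 2 ≤ ∑ g ∈ Icc 1 Y, (Nat.totient g : ℝ) / g ^ 2 := by
  have h1 : ∑ n ∈ Icc 1 Y, (1 / n : ℝ) = ∑ n ∈ Icc 1 Y, ∑ q ∈ n.divisorsAntidiagonal,
      (Nat.totient q.1 : ℝ) / q.1 ^ 2 * (1 / (q.2 : ℝ) ^ 2) := sum_congr rfl fun n hn => by
    have hn : (0 : ℝ) < n := by exact_mod_cast (mem_Icc.1 hn).1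
    rw [sum_congr rfl (g := fun q => (Nat.totient q.1 : ℝ) / n ^ 2) fun q hq => by
      rw [← (Nat.mem_divisorsAntidiagonal.1 hq).1]; push_cast; ring, ← sum_div,
      Nat.sum_divisorsAntidiagonal fun a _ => (Nat.totient a : ℝ)]
    have : ∑ g ∈ n.divisors, (Nat.totient g : ℝ) = n := by exact_mod_cast Nat.sum_totient n
    rw [this]
    field_simp
  have h2 : ∑ n ∈ Icc 1 Y, ∑ q ∈ n.divisorsAntidiagonal,
      (Nat.totient q.1 : ℝ) / q.1 ^ 2 * (1 / (q.2 : ℝ) ^ 2) ≤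
      ∑ q ∈ Icc 1 Y ×ˢ Icc 1 Y, (Nat.totient q.1 : ℝ) / q.1 ^ 2 * (1 / (q.2 : ℝ) ^ 2) := by
    rw [← sum_biUnion]
    · refine sum_le_sum_of_subset_of_nonneg (fun q hq => ?_) fun _ _ _ => by positivity
      obtain ⟨n, hn, hq⟩ := mem_biUnion.1 hq
      obtain ⟨e, h0⟩ := Nat.mem_divisorsAntidiagonal.1 hq
      have hn := (mem_Icc.1 hn).2
      have a1 : 0 < q.1 := Nat.pos_of_ne_zero fun h => h0 (by rw [← e, h, zero_mul])
      have a2 : 0 < q.2 := Nat.pos_of_ne_zero fun h => h0 (by rw [← e, h, mul_zero])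
      exact mem_product.2 ⟨mem_Icc.2 ⟨a1, by nlinarith⟩, mem_Icc.2 ⟨a2, by nlinarith⟩⟩
    · intro a _ b _ hab
      refine disjoint_left.2 fun q h1 h2 => hab ?_
      rw [← (Nat.mem_divisorsAntidiagonal.1 h1).1, (Nat.mem_divisorsAntidiagonal.1 h2).1]
  rw [sum_product] at h2
  dsimp only at h2
  rw [← sum_mul_sum, ← h1] at h2
  have h3 : ∑ e ∈ Icc 1 Y, (1 / (e : ℝ) ^ 2) ≤ 2 := by
    have := sum_inv_sq Y
    have a1 : (0 : ℝ) ≤ 1 / (Y + 1) := by positivity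
    have a2 : (0 : ℝ) ≤ 1 / (Y + 1) ^ 2 := by positivity
    linarith
  have h4 : 0 ≤ ∑ g ∈ Icc 1 Y, (Nat.totient g : ℝ) / g ^ 2 := sum_nonneg fun _ _ => by positivity
  nlinarith [le_harm Y, mul_le_mul_of_nonneg_left h3 h4]

lemma totient_sum' (G Y : ℕ) :
    Real.log (Y + 1) / 2 - 1 - Real.log G ≤ ∑ g ∈ Icc G Y, (Nat.totient g : ℝ) / g ^ 2 := by
  have h1 : ∑ g ∈ Icc 1 Y, (Nat.totient g : ℝ) / g ^ 2 ≤
      ∑ g ∈ Icc 1 G ∪ Icc G Y, (Nat.totient g : ℝ) / g ^ 2 :=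
    sum_le_sum_of_subset_of_nonneg (fun g hg => by
      simp only [mem_union, mem_Icc] at hg ⊢; omega) fun _ _ _ => by positivity
  have h2 := sum_union_inter (s₁ := Icc 1 G) (s₂ := Icc G Y)
    (f := fun g => (Nat.totient g : ℝ) / g ^ 2)
  have h3 : 0 ≤ ∑ g ∈ Icc 1 G ∩ Icc G Y, (Nat.totient g : ℝ) / g ^ 2 :=
    sum_nonneg fun _ _ => by positivity
  have h4 : ∑ g ∈ Icc 1 G, (Nat.totient g : ℝ) / g ^ 2 ≤ ∑ g ∈ Icc 1 G, (1 / g : ℝ) :=
    sum_le_sum fun g hg => by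
      have a1 : (0 : ℝ) < g := by exact_mod_cast (mem_Icc.1 hg).1
      have a2 : (Nat.totient g : ℝ) ≤ g := by exact_mod_cast Nat.totient_le g
      rw [div_le_div_iff₀ (by positivity) a1]
      nlinarith
  linarith [totient_sum Y, harm_le G]

end NoThree
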