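import Pool.Agent.MP_3409fc_co.Step

/-!
The number of sets of `m` points of the `m × m` grid with no three on a line.
-/

namespace NoThree

open Finset

lemma seq_bound (D : ℕ → ℝ) {m q : ℕ} (hq : 4 * q ≤ m) (hq0 : 0 < q) {β δ : ℝ} (hβ : 0 ≤ β)
    (hδ : β ≤ q * δ) (h0 : ∀ j < m, -1 ≤ D j) (h1 : ∀ j, j + 1 < m → D j ≤ D (j + 1))
    (h2 : ∀ j, q ≤ j → j < 2 * q → β - 1 ≤ D j ∨ D j + δ ≤ D (j + 1)) :
    m / 2 * β - m ≤ ∑ j ∈ range m, D j := by
  have mono : ∀ i j, i ≤ j → j < m → D i ≤ D j := fun i j hij hj => by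
    induction j, hij using Nat.le_induction with
    | base => exact le_rfl
    | succ j _ ih => exact (ih (by omega)).trans (h1 j hj)
  have key : β - 1 ≤ D (2 * q) := by
    by_cases h : ∃ j, q ≤ j ∧ j < 2 * q ∧ β - 1 ≤ D j
    · obtain ⟨j, -, b, c⟩ := h
      exact c.trans (mono _ _ b.le (by omega))
    · have a : ∀ t, t ≤ q → D q + t * δ ≤ D (q + t) := fun t ht => by
        induction t with
        | zero => simp
        | succ t ih =>
          have := (h2 (q + t) (by omega) (by omega)).resolve_left fun c =>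
            h ⟨_, by omega, by omega, c⟩
          have := ih (by omega)
          push_cast
          rw [← add_assoc]
          linarith
      have := a q le_rfl
      rw [← two_mul] at this
      linarith [h0 q (by omega)]
  have h3 : ∀ j ∈ range m, (if j ∈ Ico (2 * q) m then β else 0) - 1 ≤ D j := fun j hj => by
    have hj := mem_range.1 hj
    split_ifs with h
    · exact key.trans (mono _ _ (mem_Ico.1 h).1 hj)
    · simpa using h0 j hj
  refine le_trans ?_ (sum_le_sum h3)
  rw [sum_sub_distrib, sum_ite_mem, inter_eq_right.2 fun j hj => mem_range.2 (mem_Ico.1 hj).2]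
  simp only [sum_const, card_range, Nat.card_Ico, nsmul_eq_mul, mul_one]
  have : (m : ℝ) / 2 ≤ ((m - 2 * q : ℕ) : ℝ) := by
    rw [Nat.cast_sub (by omega)]
    have : (4 * q : ℝ) ≤ m := by exact_mod_cast hq
    push_cast
    linarith
  nlinarith

/-- the first `j` indices -/
def ini (m j : ℕ) : Finset (Fin m) := univ.filter fun i => i.val < j

lemma ini_succ {m j : ℕ} (h : j < m) : ini m (j + 1) = insert ⟨j, h⟩ (ini m j) := by
  ext i
  simp only [ini, mem_filter, mem_univ, true_and, mem_insert, Fin.ext_iff]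
  omega

lemma not_mem_ini {m j k : ℕ} (h : k < m) (hjk : j ≤ k) : (⟨k, h⟩ : Fin m) ∉ ini m j := by
  simp [ini, hjk]

lemma card_ini {m j : ℕ} (h : j ≤ m) : #(ini m j) = j := by
  induction j with
  | zero => simp [ini]
  | succ j ih => rw [ini_succ h, card_insert_of_notMem (not_mem_ini h le_rfl), ih (by omega)]

lemma numeric {m j G : ℕ} {L : ℝ} (hL : L = Real.log m) (hL' : 30000 ≤ L) (hm : 0 < m)
    (hj : (m : ℝ) / 8 ≤ j) {r : ℝ} (hr : (m : ℝ) / 8 ≤ r) (hG : Real.log G ≤ 1000 + L / 8) :
    L / (1600000 * m) ≤ j / 2 * (1 / (1000 * (m : ℝ) ^ 2) *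
      ((∑ g ∈ Icc G (Nat.sqrt m), (Nat.totient g : ℝ) / g ^ 2) / 4 -
        (1 / j + 1 / r) / 2 * ∑ g ∈ Icc G (Nat.sqrt m), (Nat.totient g : ℝ))
        - 12 * (1 / (1000 * (m : ℝ) ^ 2)) ^ 2 * m ^ 2 * (1 + Real.log m)) := by
  have hm' : (0 : ℝ) < m := by exact_mod_cast hm
  have h1 : L / 2 ≤ Real.log (Nat.sqrt m + 1) := by
    have a : (m : ℝ) ≤ (Nat.sqrt m + 1) ^ 2 := by exact_mod_cast (Nat.lt_succ_sqrt' m).le
    have := Real.log_le_log hm' a
    rw [Real.log_pow] at this
    push_cast at this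
    linarith
  have h2 := totient_sum' G (Nat.sqrt m)
  have h3 : ∑ g ∈ Icc G (Nat.sqrt m), (Nat.totient g : ℝ) ≤ m := by
    have a : ∑ g ∈ Icc G (Nat.sqrt m), Nat.totient g ≤ ∑ g ∈ Icc 1 (Nat.sqrt m), Nat.totient g := by
      refine sum_le_sum_of_ne_zero fun g hg h => mem_Icc.2 ⟨?_, (mem_Icc.1 hg).2⟩
      exact Nat.pos_of_ne_zero fun e => h (by rw [e]; rfl)
    have b : ∑ g ∈ Icc 1 (Nat.sqrt m), Nat.totient g ≤ #(Icc 1 (Nat.sqrt m)) • Nat.sqrt m :=
      sum_le_card_nsmul _ _ _ fun g hg => (Nat.totient_le g).trans (mem_Icc.1 hg).2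
    have c := Nat.sqrt_le m
    simp only [Nat.card_Icc, add_tsub_cancel_right, smul_eq_mul] at b
    exact_mod_cast a.trans (b.trans c)
  have h4 : (1 / j + 1 / r : ℝ) / 2 ≤ 8 / m := by
    have a : (1 / j : ℝ) ≤ 1 / (m / 8) := one_div_le_one_div_of_le (by positivity) hj
    have b : (1 / r : ℝ) ≤ 1 / (m / 8) := one_div_le_one_div_of_le (by positivity) hr
    have c : (1 / (m / 8) : ℝ) = 8 / m := by field_simp
    linarith
  have h5 : (1 / j + 1 / r : ℝ) / 2 * ∑ g ∈ Icc G (Nat.sqrt m), (Nat.totient g : ℝ) ≤ 8 := by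
    calc _ ≤ 8 / m * (m : ℝ) :=
          mul_le_mul h4 h3 (sum_nonneg fun _ _ => by positivity) (by positivity)
      _ = 8 := by field_simp
  generalize (1 / j + 1 / r : ℝ) / 2 * ∑ g ∈ Icc G (Nat.sqrt m), (Nat.totient g : ℝ) = E at h5
  generalize ∑ g ∈ Icc G (Nat.sqrt m), (Nat.totient g : ℝ) / g ^ 2 = S at h2
  rw [← hL]
  have h6 : L / 100 ≤ S / 4 - E - 12 / 1000 * (1 + L) := by linarith
  have e : 1 / (1000 * (m : ℝ) ^ 2) * (S / 4 - E) - 12 * (1 / (1000 * (m : ℝ) ^ 2)) ^ 2 * m ^ 2 *
      (1 + L) = 1 / (1000 * (m : ℝ) ^ 2) * (S / 4 - E - 12 / 1000 * (1 + L)) := by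
    field_simp
  rw [e]
  calc L / (1600000 * m) = m / 8 / 2 * (1 / (1000 * (m : ℝ) ^ 2) * (L / 100)) := by
        field_simp; norm_num
    _ ≤ _ := by gcongr

theorem tuples {m : ℕ} (hL : 30000 ≤ Real.log m) {X : Finset (Fin m → ℤ × ℤ)} (hX : Sym X)
    (hg : ∀ y ∈ X, Good m y) :
    Real.log #X ≤ 2 * m * Real.log m + m - m * Real.log m / 25600000 := by
  set L := Real.log m with hLd
  have hm8 : 8 ≤ m := by
    by_contra h
    have a : (m : ℝ) ≤ 8 := by exact_mod_cast (not_le.1 h).le
    have := Real.log_le_self (Nat.cast_nonneg m : (0 : ℝ) ≤ m)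
    linarith
  have hm : (8 : ℝ) ≤ m := by exact_mod_cast hm8
  rcases X.eq_empty_or_nonempty with rfl | hne
  · simp only [card_empty, Nat.cast_zero, Real.log_zero]
    nlinarith
  have hN : (0 : ℝ) < #X := by exact_mod_cast hne.card_pos
  set f : ℕ → ℝ := fun j => Phi X (ini m j) with hf
  set D : ℕ → ℝ := fun j => 2 * L - (f j - f (j + 1)) / #X with hD
  have hΩ : Real.log #(box m) = 2 * L := by
    rw [card_box]; push_cast; rw [Real.log_pow, ← hLd]; norm_num
  have fd : ∀ j (h : j < m) {K : ℝ}, 1 ≤ K →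
      #(X.filter fun y => ¬Light X m K (ini m j) ⟨j, h⟩ y) * Real.log K / #X - 1 ≤ D j := by
    intro j h K hK
    have := first_diff (X := X) (A := ini m j) (box m) (fun y hy => (hg y hy).mem) ⟨j, h⟩ hK
    rw [hΩ, ← ini_succ h] at this
    have e : (X.filter fun y => ¬Light X m K (ini m j) ⟨j, h⟩ y) = X.filter fun y =>
        K * #(fib X (ini m j) y) < #(box m) * #(fib X (ini m (j + 1)) y) := by
      refine filter_congr fun y _ => ?_
      unfold Light
      rw [not_le, card_box, ← ini_succ h]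
      push_cast
      rfl
    rw [e]
    simp only [hD, hf]
    rw [div_sub_one hN.ne', div_le_iff₀ hN, sub_mul, div_mul_cancel₀ _ hN.ne']
    linarith
  have sd : ∀ j (h : j + 1 < m), D (j + 1) - D j = (Phi X (ini m j)
      - 2 * Phi X (insert ⟨j, by omega⟩ (ini m j))
      + Phi X (insert ⟨j + 1, h⟩ (insert ⟨j, by omega⟩ (ini m j)))) / #X := fun j h => by
    rw [← ini_succ, ← ini_succ]
    simp only [hD, hf]
    ring
  set q := m / 4 with hq
  have hq8 : (m : ℝ) / 8 ≤ q := by
    have : m ≤ 8 * q := by omega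
    have : (m : ℝ) ≤ 8 * q := by exact_mod_cast this
    linarith
  have key := seq_bound D (m := m) (q := q) (by omega) (by omega) (β := L / 12800000)
    (δ := L / (1600000 * m)) (by linarith)
    (by
      calc L / 12800000 = m / 8 * (L / (1600000 * m)) := by field_simp; norm_num
        _ ≤ _ := by gcongr)
    (fun j h => by simpa using fd j h le_rfl)
    (fun j h => by
      rw [← sub_nonneg, sd j h]
      refine div_nonneg ?_ hN.le
      simpa using second_diff hX (not_mem_ini (by omega : j < m) le_rfl)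
        (not_mem_ini h (Nat.le_succ j)) (fun _ => 0) fun y _ => ⟨∅, by simp, by simp⟩)
    fun j h1 h2 => by
      have hj : j < m := by omega
      have hj1 : j + 1 < m := by omega
      set K := Real.exp (L / 8) with hK
      have hK1 : 1 ≤ K := Real.one_le_exp (by linarith)
      by_cases hl : 3 / 4 * (#X : ℝ) ≤ #(X.filter (Light X m K (ini m j) ⟨j, hj⟩))
      · right
        set G := ⌈1000 * K⌉₊ with hG
        have hG1 : 1 ≤ G := Nat.one_le_iff_ne_zero.2 (Nat.ceil_pos.2 (by linarith)).ne'
        have hG2 : Real.log G ≤ 1000 + L / 8 := by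
          have a : (G : ℝ) ≤ 1001 * K := by
            have := Nat.ceil_lt_add_one (show 0 ≤ 1000 * K by linarith)
            linarith
          have b := Real.log_le_log (by exact_mod_cast hG1) a
          rw [Real.log_mul (by norm_num) (by linarith), hK, Real.log_exp] at b
          have c := Real.log_le_sub_one_of_pos (show (0 : ℝ) < 1001 by norm_num)
          linarith
        have hc : #(ini m j) = j := card_ini hj.le
        have hq' : (q : ℝ) ≤ j := by exact_mod_cast h1
        have st := step hX hg (not_mem_ini hj le_rfl) (not_mem_ini hj1 (Nat.le_succ j))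
          (by simp) (card_pos.1 (by omega)) hl (by omega) hG1 (Nat.sqrt m)
          (τ := 1 / (1000 * (m : ℝ) ^ 2)) (by positivity) (by linarith) (by
            have := Nat.le_ceil (1000 * K)
            rw [one_div_mul_eq_div, div_le_div_iff₀ (by positivity) (by positivity)]
            nlinarith [sq_nonneg (m : ℝ)])
        have nu := numeric (j := j) (G := G) hLd hL (by omega) (hq8.trans hq')
          (r := #(ini m j)ᶜ) (by
            rw [card_compl, hc, Fintype.card_fin]
            exact hq8.trans (by exact_mod_cast (by omega : q ≤ m - j))) hG2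
        rw [hc] at st
        have := (mul_le_mul_of_nonneg_left nu hN.le).trans st
        rw [← le_sub_iff_add_le', sd j hj1, le_div_iff₀ hN]
        linarith
      · left
        have a := fd j hj hK1
        rw [hK, Real.log_exp] at a
        have b : (#(X.filter (Light X m K (ini m j) ⟨j, hj⟩)) : ℝ) +
            #(X.filter fun y => ¬Light X m K (ini m j) ⟨j, hj⟩ y) = #X := by
          exact_mod_cast card_filter_add_card_filter_not _
        refine le_trans (sub_le_sub_right ?_ 1) a
        rw [le_div_iff₀ hN]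
        nlinarith
  have e : ∑ j ∈ range m, D j = 2 * L * m - Real.log #X := by
    simp only [hD]
    rw [sum_sub_distrib, ← sum_div, sum_range_sub', sum_const, card_range, nsmul_eq_mul]
    have a : f 0 = #X * Real.log #X := by
      simp only [hf]
      rw [show ini m 0 = ∅ by simp [ini], Phi_empty]
    have b : f m = 0 := by
      simp only [hf]
      rw [show ini m m = univ by simp [ini], Phi_univ]
    rw [a, b]
    field_simp
    ring
  rw [e] at key
  linarith

/-- sets of `m` grid points, no three on a line -/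
def GoodSet (m : ℕ) (T : Finset (ℤ × ℤ)) : Prop :=
  T ⊆ box m ∧ #T = m ∧ ∀ p ∈ T, ∀ q ∈ T, ∀ r ∈ T, p ≠ q → p ≠ r → q ≠ r → det p q r ≠ 0

theorem sets {m : ℕ} (hL : 30000 ≤ Real.log m) {F : Finset (Finset (ℤ × ℤ))}
    (hF : ∀ T ∈ F, GoodSet m T) :
    (#F : ℝ) ≤ Real.exp (m * Real.log m + 2 * m - m * Real.log m / 25600000) := by
  classical
  rcases F.eq_empty_or_nonempty with rfl | hne
  · simpa using (Real.exp_pos _).le
  have hm : (0 : ℝ) < m := by
    by_contra h
    rw [le_antisymm (not_lt.1 h) (Nat.cast_nonneg m), Real.log_zero] at hL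
    linarith
  set X : Finset (Fin m → ℤ × ℤ) := (Fintype.piFinset fun _ => box m).filter fun y =>
    Good m y ∧ univ.image y ∈ F with hX
  have hs : Sym X := fun y hy σ => by
    obtain ⟨-, h1, h2⟩ := mem_filter.1 hy
    refine mem_filter.2 ⟨Fintype.mem_piFinset.2 fun i => h1.mem _, ⟨fun i => h1.mem _,
      h1.inj.comp σ.injective, fun a b c ab ac bc => h1.nc _ _ _ (σ.injective.ne ab)
        (σ.injective.ne ac) (σ.injective.ne bc)⟩, ?_⟩
    rwa [← image_image, image_univ_of_surjective σ.surjective]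
  have h1 := tuples hL hs fun y hy => (mem_filter.1 hy).2.1
  have h2 : m.factorial * #F ≤ #X := by
    refine mul_card_image_le_card_of_maps_to (f := fun y => univ.image y)
      (fun y hy => (mem_filter.1 hy).2.2) _ fun T hT => ?_
    obtain ⟨t1, t2, t3⟩ := hF T hT
    set e := T.equivFinOfCardEq t2 with he
    have hi : ∀ σ : Equiv.Perm (Fin m), Function.Injective fun i => (e.symm (σ i) : ℤ × ℤ) :=
      fun σ => Subtype.val_injective.comp (e.symm.injective.comp σ.injective)
    have him : ∀ σ : Equiv.Perm (Fin m), univ.image (fun i => (e.symm (σ i) : ℤ × ℤ)) = T :=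
      fun σ => eq_of_subset_of_card_le (image_subset_iff.2 fun i _ => (e.symm (σ i)).2)
        (by rw [card_image_of_injective _ (hi σ), t2]; simp)
    rw [show m.factorial = #(univ : Finset (Equiv.Perm (Fin m))) by
      rw [card_univ, Fintype.card_perm, Fintype.card_fin]]
    refine card_le_card_of_injOn (fun σ i => (e.symm (σ i) : ℤ × ℤ)) (fun σ _ => ?_)
      fun σ _ σ' _ h => ?_
    · refine mem_coe.2 (mem_filter.2 ⟨mem_filter.2 ⟨Fintype.mem_piFinset.2 fun i =>
        t1 (e.symm (σ i)).2, ⟨fun i => t1 (e.symm (σ i)).2, hi σ, fun a b c ab ac bc =>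
          t3 _ (e.symm (σ a)).2 _ (e.symm (σ b)).2 _ (e.symm (σ c)).2 ((hi σ).ne ab)
            ((hi σ).ne ac) ((hi σ).ne bc)⟩, by rw [him]; exact hT⟩, him σ⟩)
    · ext i
      rw [e.symm.injective (Subtype.val_injective (congrFun h i))]
  have hF0 : (0 : ℝ) < #F := by exact_mod_cast hne.card_pos
  have hf0 : (0 : ℝ) < m.factorial := by exact_mod_cast m.factorial_pos
  have h3 : Real.log m.factorial + Real.log #F ≤ Real.log #X := by
    rw [← Real.log_mul hf0.ne' hF0.ne']
    exact Real.log_le_log (by positivity) (by exact_mod_cast h2)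
  have h4 : m * Real.log m - Real.log m.factorial ≤ m := by
    have := Real.log_le_log (by positivity) (Real.pow_div_factorial_le_exp m hm.le m)
    rwa [Real.log_exp, Real.log_div (by positivity) hf0.ne', Real.log_pow] at this
  rw [← Real.log_le_iff_le_exp hF0]
  linarith

end NoThree
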