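import Pool.Agent.MP_3409fc_co.Ent
import Pool.Agent.MP_3409fc_co.Geo

/-!
The entropy loss in one step.
-/

set_option linter.unusedSectionVars false

namespace NoThree

open Finset

variable {ι : Type*} [Fintype ι] [DecidableEq ι]

/-- tuples of distinct grid points, no three on a line -/
structure Good (m : ℕ) (y : ι → ℤ × ℤ) : Prop where
  mem : ∀ i, y i ∈ box m
  inj : Function.Injective y
  nc : ∀ a b c, a ≠ b → a ≠ c → b ≠ c → det (y a) (y b) (y c) ≠ 0

/-- the value at `a` has small conditional probability -/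
def Light (X : Finset (ι → ℤ × ℤ)) (m : ℕ) (K : ℝ) (A : Finset ι) (a : ι) (y : ι → ℤ × ℤ) : Prop :=
  (m : ℝ) ^ 2 * #(fib X (insert a A) y) ≤ K * #(fib X A y)

noncomputable instance (X : Finset (ι → ℤ × ℤ)) (m : ℕ) (K : ℝ) (A : Finset ι) (a : ι)
    (y : ι → ℤ × ℤ) : Decidable (Light X m K A a y) := Classical.dec _

variable {X : Finset (ι → ℤ × ℤ)} {m : ℕ} {K : ℝ} {A : Finset ι} {a b : ι}

lemma light_swap (hX : Sym X) (ha : a ∉ A) (hb : b ∉ A) (y : ι → ℤ × ℤ) :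
    Light X m K A a (y ∘ Equiv.swap a b) ↔ Light X m K A b y := by
  unfold Light
  rw [card_fib_perm hX, card_fib_perm hX, map_swap_insert ha hb, map_swap_eq ha hb]

lemma blocked (hX : Sym X) (hg : ∀ y ∈ X, Good m y) (ha : a ∉ A) (hb : b ∉ A) (hab : a ≠ b)
    (hm : 0 < m) {G : ℕ} (hG : 1 ≤ G) {τ : ℝ} (hτ : 0 ≤ τ) (hK : 0 ≤ K)
    (hη : K / m ^ 2 ≤ τ * G) :
    ∑ z ∈ X, (∑ i ∈ A, (τ * (if Light X m K A a z then wt G (z a) (z i) else 0)
      - 12 * τ ^ 2 * m ^ 2 * (1 + Real.log m))) / 2 ≤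
      Phi X A - 2 * Phi X (insert a A) + Phi X (insert b (insert a A)) := by
  refine second_diff hX ha hb _ fun y hy => ?_
  set H := fib X A y with hH
  have hh : (0 : ℝ) < #H := by exact_mod_cast card_pos.2 ⟨y, self_mem_fib hy⟩
  have hm' : (0 : ℝ) < m := by exact_mod_cast hm
  set n : ℤ × ℤ → ℕ := cnt H fun w => w a with hn
  set ν : ℤ × ℤ → ℝ := fun u => if (m : ℝ) ^ 2 * n u ≤ K * #H then n u / #H else 0 with hν
  have h0 : ∀ u, 0 ≤ ν u := fun u => by simp only [hν]; split_ifs <;> positivity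
  have h1 : ∀ u, ν u ≤ K / m ^ 2 := fun u => by
    simp only [hν]
    split_ifs with h
    · rw [div_le_div_iff₀ hh (by positivity)]; linarith
    · positivity
  have h2 : ∀ u, ν u ≤ n u / #H := fun u => by
    simp only [hν]
    split_ifs
    · exact le_rfl
    · positivity
  set C : ℝ := 12 * τ ^ 2 * m ^ 2 * (1 + Real.log m) with hC
  refine ⟨(box m ×ˢ box m).filter fun p => p.1 ≠ p.2 ∧ ∃ i ∈ A, det (y i) p.1 p.2 = 0, ?_, ?_⟩
  · intro z hz h
    obtain ⟨-, i, hi, h⟩ := (mem_filter.1 h).2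
    obtain ⟨hz1, hz2⟩ := mem_fib.1 hz
    rw [← hz2 i hi] at h
    exact (hg z hz1).nc i a b (fun e => ha (e ▸ hi)) (fun e => hb (e ▸ hi)) hab h
  have e1 : ∀ i ∈ A, ∑ z ∈ H, (τ * (if Light X m K A a z then wt G (z a) (z i) else 0) - C) =
      #H * (τ * ∑ u ∈ box m, ν u * wt G u (y i) - C) := fun i hi => by
    have := sum_cnt_mul H (fun w => w a) (box m) (fun z hz => (hg z (mem_fib.1 hz).1).mem a)
      fun u => if (m : ℝ) ^ 2 * n u ≤ K * #H then wt G u (y i) else 0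
    rw [sum_sub_distrib, ← mul_sum, sum_const, nsmul_eq_mul,
      sum_congr rfl (g := fun z => if (m : ℝ) ^ 2 * n (z a) ≤ K * #H then wt G (z a) (y i) else 0)
        fun z hz => by
          have e : Light X m K A a z ↔ (m : ℝ) ^ 2 * n (z a) ≤ K * #H := by
            unfold Light
            rw [card_fib_insert hz, fib_eq hz]
          simp only [e, (mem_fib.1 hz).2 i hi], ← this, mul_sub, mul_left_comm (#H : ℝ) τ,
      mul_sum (a := (#H : ℝ))]
    congr 2
    refine sum_congr rfl fun u _ => ?_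
    simp only [hν]
    split_ifs
    · field_simp
      exact mul_comm _ _
    · simp
  rw [← sum_div, sum_comm, sum_congr rfl e1, ← mul_sum]
  have e2 : ∑ i ∈ A, (τ * ∑ u ∈ box m, ν u * wt G u (y i) - C) ≤ ∑ i ∈ A,
      ∑ p ∈ (box m ×ˢ box m).filter fun p => p.1 ≠ p.2 ∧ det (y i) p.1 p.2 = 0, ν p.1 * ν p.2 :=
    sum_le_sum fun i _ => geo hG ((hg y hy).mem i) ν h0 h1 hτ hη
  have e3 : ∑ i ∈ A,
      ∑ p ∈ (box m ×ˢ box m).filter fun p => p.1 ≠ p.2 ∧ det (y i) p.1 p.2 = 0, ν p.1 * ν p.2 ≤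
      ∑ p ∈ (box m ×ˢ box m).filter fun p => p.1 ≠ p.2 ∧ ∃ i ∈ A, det (y i) p.1 p.2 = 0,
        2 * ((n p.1 * n p.2 : ℝ) / #H ^ 2) := by
    simp only [sum_filter]
    rw [sum_comm]
    refine sum_le_sum fun p _ => ?_
    rw [← sum_filter, sum_const, nsmul_eq_mul]
    split_ifs with h
    · have c1 : #(A.filter fun i => p.1 ≠ p.2 ∧ det (y i) p.1 p.2 = 0) ≤ 2 := by
        by_contra hc
        obtain ⟨i, j, k, hi, hj, hk, hij, hik, hjk⟩ := two_lt_card_iff.1 (not_le.1 hc)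
        exact (hg y hy).nc i j k hij hik hjk (det_three h.1 (mem_filter.1 hi).2.2
          (mem_filter.1 hj).2.2 (mem_filter.1 hk).2.2)
      have c2 : (#(A.filter fun i => p.1 ≠ p.2 ∧ det (y i) p.1 p.2 = 0) : ℝ) ≤ 2 := by
        exact_mod_cast c1
      have c3 : ν p.1 * ν p.2 ≤ (n p.1 * n p.2 : ℝ) / #H ^ 2 := by
        calc _ ≤ (n p.1 / #H : ℝ) * (n p.2 / #H) :=
              mul_le_mul (h2 _) (h2 _) (h0 _) (by positivity)
          _ = _ := by field_simp
      exact mul_le_mul c2 c3 (mul_nonneg (h0 _) (h0 _)) zero_le_two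
    · rw [filter_eq_empty_iff.2 fun i hi hc => h ⟨hc.1, i, hi, hc.2⟩]
      simp
  rw [← mul_sum, ← sum_div] at e3
  have e4 := mul_le_mul_of_nonneg_left (e2.trans e3) hh.le
  rw [div_le_iff₀ two_pos]
  refine e4.trans (le_of_eq ?_)
  field_simp

lemma variance {C : Type*} [DecidableEq C] (hX : Sym X) (hab : a ≠ b) (κ : ℤ × ℤ → C)
    (ε : ι → ℝ) (hε : ∑ i, ε i = 0) :
    ∑ z ∈ X, ∑ i, ∑ i', (if κ (z i) = κ (z i') then ε i * ε i' else 0) ≤ #X * ∑ i, ε i ^ 2 := by
  set R : ι → ι → ℝ := fun i i' => ∑ z ∈ X, if κ (z i) = κ (z i') then 1 else 0 with hR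
  have r1 : ∀ i i', i ≠ i' → R i i' = R a b := fun i i' h => by
    obtain ⟨σ, hσ⟩ := Equiv.Perm.exists_extending_pair (f := ![a, b]) (g := ![i, i'])
      (injective_pair_iff_ne.2 hab) (injective_pair_iff_ne.2 h)
    have s1 : σ a = i := hσ 0
    have s2 : σ b = i' := hσ 1
    have := sum_perm hX σ fun z => if κ (z a) = κ (z b) then (1 : ℝ) else 0
    simp only [Function.comp_apply, s1, s2] at this
    exact this
  have r2 : 0 ≤ R a b := sum_nonneg fun z _ => by split_ifs <;> norm_num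
  have e : ∑ z ∈ X, ∑ i, ∑ i', (if κ (z i) = κ (z i') then ε i * ε i' else 0) =
      ∑ i, ∑ i', (ε i * ε i' * R a b + if i = i' then ε i ^ 2 * (#X - R a b) else 0) := by
    rw [sum_comm]
    refine sum_congr rfl fun i _ => ?_
    rw [sum_comm]
    refine sum_congr rfl fun i' _ => ?_
    split_ifs with h
    · subst h
      simp only [if_true, sum_const, nsmul_eq_mul]
      ring
    · rw [← r1 i i' h, add_zero, hR, mul_sum]
      exact sum_congr rfl fun z _ => by split_ifs <;> simp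
  rw [e]
  simp only [sum_add_distrib, sum_ite_eq, mem_univ, if_true, ← sum_mul, ← mul_sum, hε, mul_zero,
    zero_mul, zero_add]
  have : 0 ≤ ∑ i, ε i ^ 2 := sum_nonneg fun _ _ => sq_nonneg _
  nlinarith [mul_nonneg this r2]

lemma congruent (hX : Sym X) (ha : a ∉ A) (hab : a ≠ b) (hA : A.Nonempty)
    (hL : 3 / 4 * (#X : ℝ) ≤ #(X.filter (Light X m K A a))) {g : ℕ} (hg : 1 ≤ g) :
    #X * (#A * #Aᶜ * (1 / (4 * (g : ℝ) ^ 2) - (1 / #A + 1 / #Aᶜ) / 2)) ≤
      ∑ z ∈ X, ∑ i ∈ A, ∑ c ∈ Aᶜ, if Light X m K A c z ∧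
        (((z i).1 : ZMod g), ((z i).2 : ZMod g)) = (((z c).1 : ZMod g), ((z c).2 : ZMod g))
        then (1 : ℝ) else 0 := by
  have : NeZero g := ⟨by omega⟩
  have hj : (0 : ℝ) < #A := by exact_mod_cast hA.card_pos
  have hr : (0 : ℝ) < #Aᶜ := by exact_mod_cast card_pos.2 ⟨a, mem_compl.2 ha⟩
  have hg' : (0 : ℝ) < g := by exact_mod_cast hg
  set κ : ℤ × ℤ → ZMod g × ZMod g := fun u => ((u.1 : ZMod g), (u.2 : ZMod g)) with hκ
  set p : ι → ℝ := fun i => if i ∈ A then 1 / #A else 0 with hp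
  set s : ι → ℝ := fun i => if i ∈ Aᶜ then 1 / #Aᶜ else 0 with hs
  set l : (ι → ℤ × ℤ) → ι → ℝ := fun z i =>
    if i ∈ Aᶜ then (if Light X m K A i z then 1 / #Aᶜ else 0) else 0 with hl
  have h1 : ∀ z ∈ X, #A * #Aᶜ * ((∑ i, l z i - 1 / 4) / (2 * (g : ℝ) ^ 2) -
      (∑ i, ∑ i', if κ (z i) = κ (z i') then (p i - s i) * (p i' - s i') else 0) / 2) ≤
      ∑ i ∈ A, ∑ c ∈ Aᶜ, if Light X m K A c z ∧ κ (z i) = κ (z c) then (1 : ℝ) else 0 := by
    intro z _
    have := classes (fun i => κ (z i)) p s (l z)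
      (fun i => by simp only [hl]; split_ifs <;> positivity)
      fun i => by
        simp only [hl, hs]
        split_ifs
        · exact le_rfl
        · positivity
        · exact le_rfl
    rw [Fintype.card_prod, ZMod.card, Nat.cast_mul, ← sq] at this
    refine (mul_le_mul_of_nonneg_left this (by positivity)).trans (le_of_eq ?_)
    rw [mul_sum, ← sum_subset (subset_univ A) fun i _ hi => by simp [hp, hi]]
    refine sum_congr rfl fun i hi => ?_
    rw [mul_sum, ← sum_subset (subset_univ Aᶜ) fun c _ hc => by simp only [hl, if_neg hc]; simp]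
    refine sum_congr rfl fun c hc => ?_
    simp only [hp, hl, if_pos hi, if_pos hc]
    by_cases c1 : Light X m K A c z <;> by_cases c2 : κ (z i) = κ (z c) <;> simp [c1, c2]
    field_simp
  refine le_trans ?_ (sum_le_sum h1)
  rw [← mul_sum, sum_sub_distrib, ← sum_div, ← sum_div, sum_sub_distrib, sum_const, nsmul_eq_mul]
  have h2 : ∑ z ∈ X, ∑ i, l z i = #(X.filter (Light X m K A a)) := by
    rw [sum_comm, ← sum_subset (subset_univ Aᶜ) fun c _ hc => by simp only [hl, if_neg hc]; simp,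
      sum_congr rfl (g := fun _ => (#(X.filter (Light X m K A a)) : ℝ) * (1 / #Aᶜ)) fun c hc => by
        simp only [hl, if_pos hc]
        have := sum_perm hX (Equiv.swap a c) fun z => if Light X m K A a z then 1 / (#Aᶜ : ℝ) else 0
        simp only [light_swap hX ha (mem_compl.1 hc)] at this
        rw [this, ← sum_filter, sum_const, nsmul_eq_mul], sum_const, nsmul_eq_mul]
    field_simp
  have h3 : ∑ i, (p i - s i) = 0 := by
    simp only [sum_sub_distrib, hp, hs, sum_ite_mem, univ_inter, sum_const, nsmul_eq_mul]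
    field_simp
    ring
  have h4 : ∑ i, (p i - s i) ^ 2 = 1 / #A + 1 / #Aᶜ := by
    rw [sum_congr rfl (g := fun i => (if i ∈ A then (1 / #A : ℝ) ^ 2 else 0) +
      if i ∈ Aᶜ then (1 / #Aᶜ : ℝ) ^ 2 else 0) fun i _ => by
        by_cases hi : i ∈ A <;> simp [hp, hs, hi]]
    simp only [sum_add_distrib, sum_ite_mem, univ_inter, sum_const, nsmul_eq_mul]
    field_simp
  have h5 := variance hX hab κ (fun i => p i - s i) h3
  rw [h4] at h5
  rw [h2, mul_left_comm]
  refine mul_le_mul_of_nonneg_left ?_ (by positivity)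
  have h6 : #X * (1 / (4 * (g : ℝ) ^ 2)) ≤
      (#(X.filter (Light X m K A a)) - #X * (1 / 4)) / (2 * (g : ℝ) ^ 2) := by
    rw [le_div_iff₀ (by positivity)]
    have : #X * (1 / (4 * (g : ℝ) ^ 2)) * (2 * (g : ℝ) ^ 2) = #X / 2 := by field_simp; ring
    rw [this]
    linarith
  linarith

lemma weight (hX : Sym X) (hg : ∀ y ∈ X, Good m y) (ha : a ∉ A) (hab : a ≠ b) (hA : A.Nonempty)
    (hL : 3 / 4 * (#X : ℝ) ≤ #(X.filter (Light X m K A a))) {G : ℕ} (hG : 1 ≤ G) (Y : ℕ) :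
    #X * (#A * ((∑ g ∈ Icc G Y, (Nat.totient g : ℝ) / g ^ 2) / 4 -
        (1 / #A + 1 / #Aᶜ) / 2 * ∑ g ∈ Icc G Y, (Nat.totient g : ℝ))) ≤
      ∑ z ∈ X, ∑ i ∈ A, if Light X m K A a z then wt G (z a) (z i) else 0 := by
  have hr : (0 : ℝ) < #Aᶜ := by exact_mod_cast card_pos.2 ⟨a, mem_compl.2 ha⟩
  have h1 : ∀ c ∈ Aᶜ, ∑ z ∈ X, ∑ i ∈ A, (if Light X m K A c z then wt G (z c) (z i) else 0) =
      ∑ z ∈ X, ∑ i ∈ A, if Light X m K A a z then wt G (z a) (z i) else 0 := fun c hc => by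
    rw [← sum_perm hX (Equiv.swap a c) fun z => ∑ i ∈ A,
      if Light X m K A a z then wt G (z a) (z i) else 0]
    refine sum_congr rfl fun z _ => sum_congr rfl fun i hi => ?_
    simp only [light_swap hX ha (mem_compl.1 hc), Function.comp_apply, Equiv.swap_apply_left]
    rw [Equiv.swap_apply_of_ne_of_ne (fun e : i = a => ha (e ▸ hi))
      fun e : i = c => mem_compl.1 hc (e ▸ hi)]
  have h2 := sum_congr rfl h1
  rw [sum_const, nsmul_eq_mul] at h2
  refine le_of_mul_le_mul_left ?_ hr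
  rw [← h2]
  have h3 := sum_le_sum fun g (hg : g ∈ Icc G Y) => mul_le_mul_of_nonneg_left
    (congruent hX ha hab hA hL (hG.trans (mem_Icc.1 hg).1)) (Nat.cast_nonneg (Nat.totient g))
  refine le_trans (le_of_eq ?_) (h3.trans ?_)
  · rw [sum_div, mul_sum, ← sum_sub_distrib, mul_sum, mul_sum, mul_sum]
    exact sum_congr rfl fun g _ => by ring
  · simp only [mul_sum]
    rw [sum_comm, sum_comm (s := Aᶜ)]
    refine sum_le_sum fun z hz => ?_
    rw [sum_comm, sum_comm (s := Aᶜ)]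
    refine sum_le_sum fun i hi => ?_
    rw [sum_comm]
    refine sum_le_sum fun c hc => ?_
    split_ifs with h
    · refine le_trans (le_of_eq (sum_congr rfl fun g _ => ?_)) (sum_totient_le (G := G) (Y := Y)
        (u := z c) (w := z i) fun e => mem_compl.1 hc ((hg z hz).inj e ▸ hi))
      simp [h]
    · simp [h]

/-- the loss of entropy in one step -/
lemma step (hX : Sym X) (hg : ∀ y ∈ X, Good m y) (ha : a ∉ A) (hb : b ∉ A) (hab : a ≠ b)
    (hA : A.Nonempty) (hL : 3 / 4 * (#X : ℝ) ≤ #(X.filter (Light X m K A a))) (hm : 0 < m)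
    {G : ℕ} (hG : 1 ≤ G) (Y : ℕ) {τ : ℝ} (hτ : 0 ≤ τ) (hK : 0 ≤ K) (hη : K / m ^ 2 ≤ τ * G) :
    #X * (#A / 2 * (τ * ((∑ g ∈ Icc G Y, (Nat.totient g : ℝ) / g ^ 2) / 4 -
        (1 / #A + 1 / #Aᶜ) / 2 * ∑ g ∈ Icc G Y, (Nat.totient g : ℝ))
        - 12 * τ ^ 2 * m ^ 2 * (1 + Real.log m))) ≤
      Phi X A - 2 * Phi X (insert a A) + Phi X (insert b (insert a A)) := by
  refine le_trans ?_ (blocked hX hg ha hb hab hm hG hτ hK hη)
  have h := mul_le_mul_of_nonneg_left (weight hX hg ha hab hA hL hG Y) hτ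
  simp only [← sum_div, sum_sub_distrib, ← mul_sum, sum_const, nsmul_eq_mul]
  linarith

end NoThree
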